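import Pool.Agent.H.MP_41802b_lc.Defs

namespace Pool.Agent.H.MP_41802b_lc

open Pool.Agent.H.MP_0036f5_lc Relation

variable {S X Z : Type} [Fintype X] [LinearOrder X] (x0 : X) (f : X → S → X) (i0 : X → Z)
  (h : X → S → Z → Z) (A : Set Z)

abbrev St (X Z : Type) := X ⊕ (X × X × Option Bool × Z) ⊕ Unit

def dn (a b : X) (c : S) (z : Z) : St X Z := .inr (.inl (a, b, none, if a = b then h a c z else z))

open Classical in
noncomputable def tr : St X Z → S ⊕ Bool → Option (St X Z × Bool)
  | .inl x, .inl c => some (.inl (f x c), true)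
  | .inl x, .inr _ => some (.inr (.inl (x, x, none, i0 x)), false)
  | .inr (.inl (a, b, none, z)), .inl c =>
    if k : ∃ x, IsLeast {x | f x c = a} x then
      if k' : ∃ x, IsGreatest {x | f x c = b} x then some (dn h k.choose k'.choose c z, false)
      else some (.inr (.inl (a, b, some true, z)), true)
    else some (.inr (.inl (a, b, some false, z)), true)
  | .inr (.inl (a, b, none, z)), .inr _ =>
    if a = b then if z ∈ A then some (.inr (.inr ()), true) else none
    else some (.inr (.inl (a, b, some (a = x0), z)), true)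
  | .inr (.inl (a, b, some false, z)), .inl c =>
    if k : ∃ x, IsLeast {x | a < x ∧ f x c = f a c} x then some (dn h k.choose b c z, false)
    else some (.inr (.inl (f a c, f b c, some false, z)), true)
  | .inr (.inl (a, b, some true, z)), .inl c =>
    if k : ∃ x, IsGreatest {x | x < b ∧ f x c = f b c} x then some (dn h a k.choose c z, false)
    else some (.inr (.inl (f a c, f b c, some true, z)), true)
  | .inr (.inl (_, _, some _, _)), .inr _ => none
  | .inr (.inr _), _ => some (.inr (.inr ()), true)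

noncomputable def mk : DFA2 S (St X Z) := ⟨tr x0 f i0 h A, .inl x0, Set.univ⟩

theorem exL {P : Set X} {y : X} (hy : y ∈ P) : ∃ x, IsLeast P x :=
  have k := P.toFinite.exists_minimal ⟨y, hy⟩
  ⟨k.choose, k.choose_spec.1, fun _ hz => k.choose_spec.le hz⟩

theorem exG {P : Set X} {y : X} (hy : y ∈ P) : ∃ x, IsGreatest P x :=
  have k := P.toFinite.exists_maximal ⟨y, hy⟩
  ⟨k.choose, k.choose_spec.1, fun _ hz => k.choose_spec.le hz⟩

variable {x0 f i0 h A} {w : List S}

theorem stp {k : ℕ} {c : S} (hc : w[k]? = some c) {q q' : St X Z} {d : Bool}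
    (e : tr x0 f i0 h A q (.inl c) = some (q', d)) :
    (mk x0 f i0 h A).Step w (q, k + 1) (q', if d = true then k + 2 else k) := by
  have := (List.getElem?_eq_some_iff.1 hc).1
  exact ⟨d, by simpa [cell, hc, mk], by simp, by simp only; omega, by simp⟩

def Race (x0 : X) (f : X → S → X) (i0 : X → Z) (h : X → S → Z → Z) (A : Set Z) (w : List S) (y : X)
    (p : St X Z × ℕ) (a b : X) (z : Z) (k : ℕ) : Prop :=
  ∃ s : Bool, ReflTransGen ((mk x0 f i0 h A).Step w) p (.inr (.inl (a, b, some s, z)), k + 1) ∧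
    (if s = true then b else a) ≠ y

theorem inner {k : ℕ} {c : S} (hc : w[k]? = some c) {y : X} (z : Z)
    (ih : ∀ a b, a ≠ b → Race x0 f i0 h A w y (.inr (.inl (a, b, none, z)), k) a b z k) (a b : X)
    (h1 : f a c = f y c → a ≤ y) (h2 : f b c = f y c → y ≤ b) (h3 : f a c = f b c → f a c = f y c) :
    (ReflTransGen ((mk x0 f i0 h A).Step w) (dn h a b c z, k) (dn h y y c z, k) ∧ f a c = f b c) ∨
      Race x0 f i0 h A w (f y c) (dn h a b c z, k) (f a c) (f b c) z (k + 1) := by
  induction a using WellFoundedGT.induction generalizing b with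
  | ind a iha =>
  induction b using WellFoundedLT.induction with
  | ind b ihb =>
  by_cases e : a = b
  · subst e
    obtain rfl : a = y := le_antisymm (h1 (h3 rfl)) (h2 (h3 rfl))
    exact Or.inl ⟨.refl, rfl⟩
  obtain ⟨s, a1, a2⟩ := ih a b e
  rw [show (.inr (.inl (a, b, none, z)) : St X Z) = dn h a b c z by simp [dn, e]] at a1
  cases s
  · simp only [Bool.false_eq_true, if_false] at a2
    by_cases k : ∃ x, IsLeast {x | a < x ∧ f x c = f a c} x
    · have a3 := a1.tail (stp (d := false) hc (by rw [tr, dif_pos k]))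
      obtain ⟨⟨b1, b2⟩, b3⟩ := k.choose_spec
      rcases iha _ b1 b (fun e => b3 ⟨(h1 (b2 ▸ e)).lt_of_ne a2, e.symm.trans b2⟩) h2
        (by rwa [b2]) with ⟨c1, c2⟩ | ⟨s, c1, c2⟩
      · exact Or.inl ⟨a3.trans c1, b2 ▸ c2⟩
      · exact Or.inr ⟨s, b2 ▸ a3.trans c1, b2 ▸ c2⟩
    · exact Or.inr ⟨false, a1.tail (stp (d := true) hc (by rw [tr, dif_neg k])),
        fun e => k (exL ⟨(h1 e).lt_of_ne a2, e.symm⟩)⟩
  · simp only [if_true] at a2
    by_cases k : ∃ x, IsGreatest {x | x < b ∧ f x c = f b c} x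
    · have a3 := a1.tail (stp (d := false) hc (by rw [tr, dif_pos k]))
      obtain ⟨⟨b1, b2⟩, b3⟩ := k.choose_spec
      rcases ihb _ b1 (fun e => b3 ⟨(h2 (b2 ▸ e)).lt_of_ne' a2, e.symm.trans b2⟩)
        (by rwa [b2]) with ⟨c1, c2⟩ | ⟨s, c1, c2⟩
      · exact Or.inl ⟨a3.trans c1, b2 ▸ c2⟩
      · exact Or.inr ⟨s, b2 ▸ a3.trans c1, b2 ▸ c2⟩
    · exact Or.inr ⟨true, a1.tail (stp (d := true) hc (by rw [tr, dif_neg k])),
        fun e => k (exG ⟨(h2 e).lt_of_ne' a2, e.symm⟩)⟩

theorem tk {k : ℕ} {c : S} (hc : w[k]? = some c) :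
    (w.take (k + 1)).foldl f x0 = f ((w.take k).foldl f x0) c := by
  rw [List.take_add_one, hc]
  simp

theorem race (z : Z) : ∀ k ≤ w.length, ∀ a b, a ≠ b →
    Race x0 f i0 h A w ((w.take k).foldl f x0) (.inr (.inl (a, b, none, z)), k) a b z k
  | 0, _, a, b, e => ⟨a = x0, .single ⟨true, by simp [mk, cell, tr, e], by simp, by simp, by simp⟩, by
    by_cases a = x0 <;> simp_all [eq_comm]⟩
  | k + 1, hk, a, b, e => by
    have hc := List.getElem?_eq_getElem (l := w) (i := k) hk
    rw [tk hc]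
    by_cases k1 : ∃ x, IsLeast {x | f x w[k] = a} x
    swap
    · exact ⟨false, .single (stp (d := true) hc (by rw [tr, dif_neg k1])),
        fun e => k1 (exL (y := (w.take k).foldl f x0) e.symm)⟩
    by_cases k2 : ∃ x, IsGreatest {x | f x w[k] = b} x
    swap
    · exact ⟨true, .single (stp (d := true) hc (by rw [tr, dif_pos k1, dif_neg k2])),
        fun e => k2 (exG (y := (w.take k).foldl f x0) e.symm)⟩
    obtain ⟨b1, b2⟩ := k1.choose_spec
    obtain ⟨c1, c2⟩ := k2.choose_spec
    simp only [Set.mem_ofPred_eq] at b1 c1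
    rcases inner hc z (race z k (by omega)) k1.choose k2.choose (fun e => b2 (e.symm.trans b1))
      (fun e => c2 (e.symm.trans c1)) (fun e' => (e (b1.symm.trans (e'.trans c1))).elim) with
      ⟨-, d⟩ | ⟨s, d1, d2⟩
    · exact (e (b1.symm.trans (d.trans c1))).elim
    · rw [b1, c1] at d1 d2
      exact ⟨s, .head (stp (d := false) hc (by rw [tr, dif_pos k1, dif_pos k2])) d1, d2⟩

def zf (f : X → S → X) (i0 : X → Z) (h : X → S → Z → Z) : X → List S → Z
  | x, [] => i0 x
  | x, a :: v => h x a (zf f i0 h (f x a) v)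

theorem down : ∀ k ≤ w.length, ReflTransGen ((mk x0 f i0 h A).Step w)
    (.inr (.inl ((w.take k).foldl f x0, (w.take k).foldl f x0, none,
      zf f i0 h ((w.take k).foldl f x0) (w.drop k))), k) (.inr (.inl (x0, x0, none, zf f i0 h x0 w)), 0)
  | 0, _ => .refl
  | k + 1, hk => by
    have hc := List.getElem?_eq_getElem (l := w) (i := k) hk
    refine .trans ?_ (down k (by omega))
    rw [tk hc, List.drop_eq_getElem_cons hk, zf]
    set y := (w.take k).foldl f x0
    have k1 := exL (P := {x | f x w[k] = f y w[k]}) (y := y) rfl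
    have k2 := exG (P := {x | f x w[k] = f y w[k]}) (y := y) rfl
    obtain ⟨b1, b2⟩ := k1.choose_spec
    obtain ⟨c1, c2⟩ := k2.choose_spec
    simp only [Set.mem_ofPred_eq] at b1 c1
    rcases inner hc _ (race _ k (by omega)) k1.choose k2.choose (fun _ => b2 rfl)
      (fun _ => c2 rfl) (fun _ => b1) with ⟨d, -⟩ | ⟨s, -, d⟩
    · refine .head (stp (d := false) hc (by rw [tr, dif_pos k1, dif_pos k2])) ?_
      simpa [dn] using d
    · rw [b1, c1, ite_self] at d
      exact (d rfl).elim

theorem up : ∀ k ≤ w.length, ReflTransGen ((mk x0 f i0 h A).Step w) (.inl x0, 1)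
    (.inl ((w.take k).foldl f x0), k + 1)
  | 0, _ => .refl
  | k + 1, hk => by
    have hc := List.getElem?_eq_getElem (l := w) (i := k) hk
    rw [tk hc]
    exact (up k (by omega)).tail (stp (d := true) hc rfl)

theorem up' : ∀ k ≤ w.length, ReflTransGen ((mk x0 f i0 h A).Step w) (.inr (.inr ()), 1)
    (.inr (.inr ()), k + 1)
  | 0, _ => .refl
  | k + 1, hk => (up' k (by omega)).tail
    (stp (d := true) (List.getElem?_eq_getElem (l := w) (i := k) hk) (by rw [tr]))

theorem mk_acc : (mk x0 f i0 h A).Accepts w ↔ zf f i0 h x0 w ∈ A := by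
  have k : ReflTransGen ((mk x0 f i0 h A).Step w) (.inl x0, 1)
      (.inr (.inl (x0, x0, none, zf f i0 h x0 w)), 0) :=
    (up _ le_rfl).trans (.head ⟨false, by simp [mk, cell, tr, zf], by simp, by simp, by simp⟩
      (down _ le_rfl))
  constructor
  · rintro ⟨q, h1, p, -, h2⟩
    by_contra hA
    have ru : Relator.RightUnique ((mk x0 f i0 h A).Step w) := by
      rintro x ⟨q, i⟩ ⟨q', i'⟩ ⟨d, a1, -, -, rfl⟩ ⟨d', b1, -, -, rfl⟩
      cases a1.symm.trans b1
      rfl
    rcases ReflTransGen.total_of_right_unique ru k h1 with e | e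
    · rcases e.cases_head with e | ⟨_, ⟨d, e, -⟩, -⟩
      · simp at e
      · simp [mk, cell, tr, hA] at e
    · rcases e.cases_head with e | ⟨_, ⟨d, e, -, e', -⟩, -⟩
      · simp at e
      · rw [e' rfl] at e
        simp only [cell, List.getElem?_length, Option.elim] at e
        simp [h2] at e
  · intro hA
    exact ⟨_, k.trans (.head ⟨true, by simp [mk, cell, tr, hA], by simp, by simp, by simp⟩
      (up' _ le_rfl)), .inr (.inr ()), trivial, by simp [mk, tr]⟩

end Pool.Agent.H.MP_41802b_lc
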