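import Pool.Agent.H.MP_41802b_lc.A
import Pool.Agent.H.MP_0036f5_lc.A

namespace Pool.Agent.H.MP_41802b_lc

open Pool.Agent.H.MP_0036f5_lc Relation

variable {S Q G : Type} (M : LA S Q G)

def Rs (s : G ⊕ Bool) (R : Q → Option Q → Prop) (p : Q) (o : Option Q) : Prop :=
  ∃ r, ReflTransGen (fun x y => ∃ c g, (c, g, true) ∈ M.δ x s ∧ R c (some y)) p r ∧
    o.elim (∃ c g, (c, g, true) ∈ M.δ r s ∧ R c none) fun t => ∃ g, (t, g, false) ∈ M.δ r s

def Good (T : Q → Q → Prop) (R : Q → Option Q → Prop) (q : Q) : Prop :=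
  ∃ r, ReflTransGen (fun x y => ∃ c, R x (some c) ∧ T c y) q r ∧ R r none

theorem dual (s : G ⊕ Bool) (T : Q → Q → Prop) (R : Q → Option Q → Prop) (q : Q) :
    Good T (Rs M s R) q ↔ ∃ q', Ph M T s q q' ∧ Good (Ph M T s) R q' := by
  constructor
  · rintro ⟨r, h1, r', h2, c, g, h3, h4⟩
    have k : ∀ x y, ReflTransGen (fun x y => ∃ c g, (c, g, true) ∈ M.δ x s ∧ R c (some y)) x y →
        (∃ q', Ph M T s y q' ∧ Good (Ph M T s) R q') →
        ∃ q', Ph M T s x q' ∧ Good (Ph M T s) R q' := fun x y h h' => by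
      induction h using ReflTransGen.head_induction_on with
      | refl => exact h'
      | head h _ ih =>
        obtain ⟨c, g, a1, a2⟩ := h
        obtain ⟨q', b1, r, b2, b3⟩ := ih
        exact ⟨c, ⟨_, .refl, g, a1⟩, r, b2.head ⟨_, a2, b1⟩, b3⟩
    induction h1 using ReflTransGen.head_induction_on with
    | refl => exact k _ _ h2 ⟨c, ⟨_, .refl, g, h3⟩, c, .refl, h4⟩
    | head h _ ih =>
      obtain ⟨c, ⟨r, a1, g, a2⟩, a3⟩ := h
      obtain ⟨q', ⟨r', b1, b2⟩, b3⟩ := ih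
      exact k _ _ a1 ⟨q', ⟨r', b1.head ⟨c, g, a2, a3⟩, b2⟩, b3⟩
  · have k : ∀ x y, ReflTransGen (fun a b => ∃ c g, (c, g, false) ∈ M.δ a s ∧ T c b) x y →
        Good T (Rs M s R) y → Good T (Rs M s R) x := fun x y h ⟨r, h1, h2⟩ =>
      ⟨r, (ReflTransGen.mono (fun a b ⟨c, g, a1, a2⟩ => ⟨c, ⟨a, .refl, g, a1⟩, a2⟩) _ _ h).trans h1, h2⟩
    rintro ⟨q', ⟨r, h1, g, h2⟩, r', h3, h4⟩
    refine k _ _ h1 ?_
    clear h1
    induction h3 using ReflTransGen.head_induction_on generalizing r g with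
    | refl => exact ⟨r, .refl, r, .refl, _, g, h2, h4⟩
    | head h _ ih =>
      obtain ⟨c, a1, p, a2, g', a3⟩ := h
      obtain ⟨t, b1, b2⟩ := k _ _ a2 (ih p g' a3)
      rcases b1.cases_head with rfl | ⟨t', ⟨c', ⟨u, c1, c2⟩, c3⟩, c4⟩
      · obtain ⟨u, c1, c2⟩ := b2
        exact ⟨r, .refl, u, c1.head ⟨_, g, h2, a1⟩, c2⟩
      · exact ⟨t, c4.head ⟨c', ⟨u, c1.head ⟨_, g, h2, a1⟩, c2⟩, c3⟩, b2⟩

def RT : List S → Q → Option Q → Prop
  | [] => fun p o => o.elim (∃ f ∈ M.final, ∃ g, (f, g, true) ∈ M.δ p (.inr true))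
    fun t => ∃ g, (t, g, false) ∈ M.δ p (.inr true)
  | a :: v => Rs M (.inl (M.inj a)) (RT v)

def NA : MP_0036f5_lc.St Q → List S → Prop
  | x, [] => nfin M x
  | x, a :: v => ∃ y, nstep M x a y ∧ NA y v

theorem dr {w v : List S} {k : ℕ} {a : S} (h : w.drop k = a :: v) :
    w[k]? = some a ∧ w.drop (k + 1) = v ∧ k < w.length :=
  ⟨by simpa using congrArg List.head? h, by simpa using congrArg List.tail h, by
    have := congrArg List.length h
    simp at this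
    omega⟩

theorem na_iff {w : List S} (v : List S) (k : ℕ) (h : w.drop k = v) (hk : k ≤ w.length) :
    (∃ x, Rch (nstep M) (ninit M) w k x ∧ NA M x v) ↔ M.Accepts w := by
  induction v generalizing k with
  | nil =>
    obtain rfl : k = w.length := le_antisymm hk (by simpa using h)
    exact (acc_iff M w).symm
  | cons a v ih =>
    obtain ⟨h1, h2, h3⟩ := dr h
    rw [← ih _ h2 h3]
    constructor
    · rintro ⟨x, a1, y, a2, a3⟩
      exact ⟨y, ⟨x, a, a1, h1, a2⟩, a3⟩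
    · rintro ⟨y, ⟨x, b, a1, a2, a3⟩, a4⟩
      cases h1.symm.trans a2
      exact ⟨x, a1, y, a3, a4⟩

def Rl (w : List S) (k : ℕ) (x : MP_0036f5_lc.St Q) (t : List G) : Prop :=
  Raw M w t k ∧ x.2 = Tab M t k ∧
    ReflTransGen M.Step (M.init, 1, w.map M.inj, 0) (x.1, k + 1, t, k)

def nst (x : MP_0036f5_lc.St Q) (a : S) (g : G) (y : MP_0036f5_lc.St Q) : Prop :=
  ∃ q d, (q, g, d) ∈ M.δ x.1 (.inl (M.inj a)) ∧ y.2 = Ph M x.2 (.inl g) ∧
    if d = true then y.1 = q else ∃ b, x.2 q b ∧ y.2 b y.1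

theorem Rl.step {w : List S} {k : ℕ} {x y : MP_0036f5_lc.St Q} {t : List G} {a : S} {g : G}
    (h : Rl M w k x t) (h2 : w[k]? = some a) (h' : nst M x a g y) :
    Rl M w (k + 1) y (t.set k g) := by
  obtain ⟨b1, b2, b3⟩ := h
  obtain ⟨q, d, h3, h4, h5⟩ := h'
  have hk := (List.getElem?_eq_some_iff.1 h2).1
  have hl := b1.1
  have e : y.2 = Tab M (t.set k g) (k + 1) := by
    rw [Tab, tab_set M t g k le_rfl, cell_set' t g (by omega), h4, b2]
  refine ⟨b1.set M g, e, ?_⟩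
  rw [← b1.cell M h2] at h3
  cases d
  · obtain ⟨b, h6, h7⟩ := h5
    rw [b2, ← tab_set M t g k le_rfl] at h6
    rw [e] at h7
    exact (b3.tail ⟨g, false, h3, by simp, by simp, rfl, by simp, by simp⟩).trans
      ((tab_sound M k (Nat.le_succ k) (by simp; omega) _ _ h6).trans
        (tab_sound M (k + 1) le_rfl (by simp; omega) _ _ h7))
  · obtain rfl : y.1 = q := h5
    exact b3.tail ⟨g, true, h3, by simp, fun e => by simp at e; omega, rfl, by simp, by simp⟩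

variable {M : LA S Q (S × Bool)}

theorem post (hM : Once M) {w : List S} (v : List S) (k : ℕ) (h : w.drop k = v)
    (x : MP_0036f5_lc.St Q) (t : List (S × Bool)) (hx : Rl M w k x t) {i : ℕ} {b : S} (hi : i < k)
    (hb : t[i]? = some (b, true)) : NA M x v ↔ Good x.2 (RT M v) x.1 := by
  induction v generalizing k x t with
  | nil =>
    constructor
    · rintro ⟨f, h1, r, h2, g, h3⟩
      exact ⟨r, ReflTransGen.mono (fun a b ⟨c, g, a1, a2⟩ => ⟨c, ⟨g, a1⟩, a2⟩) _ _ h2, f, h1, g, h3⟩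
    · rintro ⟨r, h2, f, h1, g, h3⟩
      exact ⟨f, h1, r, ReflTransGen.mono (fun a b ⟨c, ⟨g, a1⟩, a2⟩ => ⟨c, g, a1, a2⟩) _ _ h2, g, h3⟩
  | cons a v ih =>
    obtain ⟨h1, h2, h3⟩ := dr h
    have k0 : ∀ q g d, (q, g, d) ∈ M.δ x.1 (.inl (M.inj a)) → g = M.inj a := by
      rintro q ⟨c, e⟩ d hq
      have h4 := hx.1.1
      have := hM.2.2 w (q, _, t.set k (c, e), _) (hx.2.2.tail ⟨(c, e), d, (hx.1.cell M h1).symm ▸ hq,
        by simp, fun e => by simp at e; omega, rfl, by simp, rfl⟩) i k b c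
        (by rwa [List.getElem?_set_ne hi.ne'])
      rw [hM.1] at hq ⊢
      obtain rfl : c = a := hM.2.1 _ _ _ _ _ hq
      cases e
      · rfl
      · exact (hi.ne (this (by simp [h4, h3]))).elim
    have k1 : ∀ y, nst M x a (M.inj a) y → (NA M y v ↔ Good y.2 (RT M v) y.1) := fun y hy =>
      ih _ h2 y _ (hx.step M h1 hy) (by omega) (by rwa [List.getElem?_set_ne hi.ne'])
    rw [RT, dual]
    constructor
    · rintro ⟨⟨p, T⟩, ⟨q, g, d, a1, a2, a3⟩, a4⟩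
      obtain rfl := k0 _ _ _ a1
      have a5 := (k1 _ ⟨q, d, a1, a2, a3⟩).1 a4
      obtain rfl : T = _ := a2
      refine ⟨p, ?_, a5⟩
      cases d
      · obtain ⟨c, c1, r, c2, c3⟩ := a3
        exact ⟨r, c2.head ⟨q, _, a1, c1⟩, c3⟩
      · obtain rfl : p = q := a3
        exact ⟨_, .refl, _, a1⟩
    · rintro ⟨p, ⟨r, a1, g, a2⟩, a3⟩
      have : nst M x a (M.inj a) (p, Ph M x.2 (.inl (M.inj a))) := by
        rcases a1.cases_head with rfl | ⟨c, ⟨q, g', c1, c2⟩, c3⟩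
        · exact ⟨p, true, k0 _ _ _ a2 ▸ a2, rfl, rfl⟩
        · exact ⟨q, false, k0 _ _ _ c1 ▸ c1, rfl, c, c2, r, c3, g, a2⟩
      refine ⟨_, ?_, (k1 _ this).2 a3⟩
      obtain ⟨q, d, h⟩ := this
      exact ⟨q, _, d, h⟩

def fL (M : LA S Q (S × Bool)) (x : Set Q × (Q → Q → Prop)) (a : S) : Set Q × (Q → Q → Prop) :=
  ({p | ∃ q ∈ x.1, nst M (q, x.2) a (a, false) (p, Ph M x.2 (.inl (a, false)))},
    Ph M x.2 (.inl (a, false)))

def iR (M : LA S Q (S × Bool)) (x : Set Q × (Q → Q → Prop)) : (Q → Option Q → Prop) × Prop :=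
  (RT M [], ∃ q ∈ x.1, nfin M (q, x.2))

def hR (M : LA S Q (S × Bool)) (x : Set Q × (Q → Q → Prop)) (a : S)
    (z : (Q → Option Q → Prop) × Prop) : (Q → Option Q → Prop) × Prop :=
  (Rs M (.inl (M.inj a)) z.1, z.2 ∨ ∃ q ∈ x.1, ∃ y, nst M (q, x.2) a (a, true) y ∧ Good y.2 z.1 y.1)

theorem zf1 (x : Set Q × (Q → Q → Prop)) (v : List S) :
    (zf (fL M) (iR M) (hR M) x v).1 = RT M v := by
  induction v generalizing x with
  | nil => rfl
  | cons a v ih => simp [zf, hR, RT, ih]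

theorem zf2 (hM : Once M) {w : List S} (v : List S) (k : ℕ) (h : w.drop k = v)
    (x : Set Q × (Q → Q → Prop)) (hx : ∀ q ∈ x.1, ∃ t, Rl M w k (q, x.2) t) :
    (zf (fL M) (iR M) (hR M) x v).2 ↔ ∃ q ∈ x.1, NA M (q, x.2) v := by
  induction v generalizing k x with
  | nil => rfl
  | cons a v ih =>
    obtain ⟨h1, h2, h3⟩ := dr h
    have k1 : ∀ q ∈ x.1, ∀ y, nst M (q, x.2) a (a, true) y →
        (NA M y v ↔ Good y.2 (RT M v) y.1) := fun q hq y hy => by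
      obtain ⟨t, ht⟩ := hx q hq
      exact post hM v _ h2 y _ (ht.step M h1 hy) k.lt_succ_self (b := a) (by simp [ht.1.1, h3])
    simp only [zf, hR, zf1]
    rw [ih _ h2 (fL M x a) fun p ⟨q, hq, hp⟩ => (hx q hq).elim fun t ht => ⟨_, ht.step M h1 hp⟩]
    constructor
    · rintro (⟨p, ⟨q, a1, q', d, a2⟩, a3⟩ | ⟨q, a1, y, a2, a3⟩)
      · exact ⟨q, a1, _, ⟨q', _, d, a2⟩, a3⟩
      · refine ⟨q, a1, y, ?_, (k1 q a1 y a2).2 a3⟩
        obtain ⟨q', d, a2⟩ := a2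
        exact ⟨q', _, d, a2⟩
    · rintro ⟨q, a1, ⟨p, T⟩, ⟨q', ⟨c, e⟩, d, a2, a3, a4⟩, a5⟩
      obtain rfl : c = a := hM.2.1 _ _ _ _ _ (hM.1 a ▸ a2)
      cases e
      · obtain rfl : T = _ := a3
        exact Or.inl ⟨p, ⟨q, a1, q', d, a2, rfl, a4⟩, a5⟩
      · exact Or.inr ⟨q, a1, _, ⟨q', d, a2, a3, a4⟩, (k1 q a1 _ ⟨q', d, a2, a3, a4⟩).1 a5⟩

theorem main [Fintype Q] (hM : Once M) : ∃ (Q' : Type) (_ : Fintype Q') (D : DFA2 S Q'),
    Fintype.card Q' ≤ 2 ^ (3 * Fintype.card Q ^ 2 + 3 * Fintype.card Q + 3) ∧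
      ∀ w, D.Accepts w ↔ M.Accepts w := by
  classical
  let _ : LinearOrder (Set Q × (Q → Q → Prop)) := .lift' _ (Fintype.equivFin _).injective
  refine ⟨_, inferInstance, mk ({M.init}, (ninit M).2) (fL M) (iR M) (hR M) {z | z.2}, ?_,
    fun w => ?_⟩
  · simp only [Fintype.card_sum, Fintype.card_prod, Fintype.card_fun, Fintype.card_set,
      Fintype.card_prop, Fintype.card_option, Fintype.card_bool, Fintype.card_unit]
    generalize Fintype.card Q = n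
    have e : 2 ^ (3 * n ^ 2 + 3 * n + 3) = 8 * ((2 ^ n * (2 ^ n) ^ n) * (2 ^ n * (2 ^ n) ^ n) *
      (2 ^ (n + 1)) ^ n) := by ring
    have a1 : 1 ≤ 2 ^ n * (2 ^ n) ^ n := Nat.succ_le_of_lt (by positivity)
    have a2 : 1 ≤ (2 ^ (n + 1)) ^ n := Nat.succ_le_of_lt (by positivity)
    rw [e]
    generalize 2 ^ n * (2 ^ n) ^ n = a at a1
    generalize (2 ^ (n + 1)) ^ n = b at a2
    have a3 : a ≤ a * a * b := by nlinarith [Nat.mul_le_mul a1 a2]
    nlinarith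
  · rw [mk_acc, Set.mem_ofPred_eq, zf2 hM w 0 rfl _ (by
      rintro q rfl
      exact ⟨_, ⟨by simp, fun _ _ => rfl⟩, rfl, .refl⟩), ← na_iff M w 0 rfl (Nat.zero_le _)]
    simp [Rch, ninit]

end Pool.Agent.H.MP_41802b_lc
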