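import Pool.Agent.H.MP_0036f5_lc.Defs

namespace Pool.Agent.H.MP_41802b_lc

open Pool.Agent.H.MP_0036f5_lc

/-- A 1-limited automaton with work symbols `(a, false)` (the letter `a`) and `(a, true)` (its
marked copy) is once-marking: on a letter it writes the letter or its marked copy, and no
computation on any input reaches a tape with two marked cells. -/
def Once {S Q : Type} (M : LA S Q (S × Bool)) : Prop :=
  (∀ a, M.inj a = (a, false)) ∧
  (∀ q a q' g d, (q', g, d) ∈ M.δ q (.inl (a, false)) → g.1 = a) ∧
  ∀ (w : List S) (x : Q × ℕ × List (S × Bool) × ℕ),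
    Relation.ReflTransGen M.Step (M.init, 1, w.map M.inj, 0) x →
      ∀ (i j : ℕ) (a b : S), x.2.2.1[i]? = some (a, true) → x.2.2.1[j]? = some (b, true) → i = j

/-- A two-way deterministic finite automaton; `inr false`, `inr true` are the end-markers and the
direction `true` means right. -/
structure DFA2 (S Q : Type) where
  δ : Q → S ⊕ Bool → Option (Q × Bool)
  init : Q
  final : Set Q

/-- One move between configurations (state, head position) on input `w`. -/
def DFA2.Step {S Q : Type} (D : DFA2 S Q) (w : List S) (x y : Q × ℕ) : Prop :=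
  ∃ d, D.δ x.1 (cell w x.2) = some (y.1, d) ∧ (x.2 = 0 → d = true) ∧
    (x.2 = w.length + 1 → d = false) ∧ y.2 = if d = true then x.2 + 1 else x.2 - 1

def DFA2.Accepts {S Q : Type} (D : DFA2 S Q) (w : List S) : Prop :=
  ∃ q, Relation.ReflTransGen (D.Step w) (D.init, 1) (q, w.length + 1) ∧
    ∃ f ∈ D.final, D.δ q (.inr true) = some (f, true)

end Pool.Agent.H.MP_41802b_lc
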